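import Pool.Agent.N89.HB.Stm

/-!
# Project HB (helper89), leaf SUB: monic divisors of a split polynomial
-/

set_option autoImplicit false

namespace Pool.Agent.N973.HB.SUB

open Polynomial

theorem aux {W ι : Type} [Field W] [DecidableEq ι] (θ : ι → W) (s : Finset ι) :
    ∀ g : W[X], g.Monic → g ∣ ∏ i ∈ s, (X - C (θ i)) →
      ∃ S ⊆ s, g = ∏ i ∈ S, (X - C (θ i)) := by
  induction s using Finset.induction_on with
  | empty =>
    intro g hg h
    refine ⟨∅, subset_rfl, ?_⟩
    rw [Finset.prod_empty] at h ⊢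
    exact hg.eq_one_of_isUnit (isUnit_of_dvd_one h)
  | insert a s ha ih =>
    intro g hg h
    rw [Finset.prod_insert ha] at h
    by_cases hd : (X - C (θ a)) ∣ g
    · obtain ⟨g1, rfl⟩ := hd
      have hm : g1.Monic := (monic_X_sub_C (θ a)).of_mul_monic_left hg
      obtain ⟨S, hS, e⟩ := ih g1 hm ((mul_dvd_mul_iff_left (X_sub_C_ne_zero (θ a))).1 h)
      refine ⟨insert a S, Finset.insert_subset_insert a hS, ?_⟩
      rw [Finset.prod_insert (fun h => ha (hS h)), ← e]
    · have hc : IsCoprime g (X - C (θ a)) :=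
        (((irreducible_X_sub_C (θ a)).coprime_iff_not_dvd).2 hd).symm
      obtain ⟨S, hS, e⟩ := ih g hg (hc.dvd_of_dvd_mul_left h)
      exact ⟨S, hS.trans (Finset.subset_insert a s), e⟩

theorem main : Pool.Agent.N89.HB.S_SUB := by
  intro W _ N θ g hg h
  obtain ⟨S, -, e⟩ := aux θ Finset.univ g hg h
  exact ⟨S, e⟩

end Pool.Agent.N973.HB.SUB
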